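import Pool.Agent.H433.CP.Stm

/-!
# CP-C1: the counting lemma (helper51 for helper433)
-/

set_option autoImplicit false

open NumberField IsDedekindDomain Finset Polynomial

namespace Pool.Agent.H51.CP

open Pool.Agent.H433 Pool.Agent.H433.CP

theorem c1 (h1 : S_D1) (h2 : S_C2) : S_C1 := by
  classical
  intro K _ _ k A η hA hη
  obtain ⟨C₀, hC₀, hbox, -⟩ := AC.Nm_box K
  obtain ⟨A₂, hA₂, hcoord⟩ := h2 K
  obtain ⟨C₁, hC₁, hci⟩ := AC.card_ideal K
  obtain ⟨C₂, hC₂, hsm⟩ := AC.small_count K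
  obtain ⟨C₃, hC₃, hsq⟩ := AC.sq_count K
  have hd : 0 < Module.finrank ℚ K := Module.finrank_pos
  have hcard : Fintype.card (K →+* ℂ) = Module.finrank ℚ K := Embeddings.card K ℂ
  obtain ⟨d, hdd⟩ : ∃ d, d = Module.finrank ℚ K := ⟨_, rfl⟩
  rw [← hdd] at hci hsm hsq hd hcard ⊢
  have hdR : (0 : ℝ) < d := by exact_mod_cast hd
  obtain ⟨C₄, hC₄, hdiv⟩ := h1 K (η / d) (by positivity)
  have hA0 : 0 < A := by linarith
  obtain ⟨b, hb⟩ : ∃ b : ℕ, b = A₂ * ⌈C₀ + A⌉₊ := ⟨_, rfl⟩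
  have hb1 : 1 ≤ b := by
    rw [hb]
    exact Nat.mul_pos hA₂ (Nat.ceil_pos.2 (by linarith))
  have hbR : (1 : ℝ) ≤ b := by exact_mod_cast hb1
  have hbC : (A₂ : ℝ) * (C₀ + A) ≤ b := by
    rw [hb]
    push_cast
    exact mul_le_mul_of_nonneg_left (Nat.le_ceil _) (Nat.cast_nonneg _)
  obtain ⟨β, hβ⟩ : ∃ β : ℝ, β = (b : ℝ) ^ d := ⟨_, rfl⟩
  have hβ0 : 0 < β := by rw [hβ]; positivity
  obtain ⟨D, hD⟩ : ∃ D : ℝ, D = C₄ * (2 * A) ^ η * (C₁ * β) := ⟨_, rfl⟩
  have hD0 : 0 < D := by rw [hD]; positivity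
  have hC₂0 : 0 < C₂ := by linarith
  have hC₃0 : 0 < C₃ := by linarith
  have hC₁0 : 0 < C₁ := by linarith
  have hC₄0 : 0 < C₄ := by linarith
  refine ⟨1 + k * (C₂ * β) + k * (C₃ * β) + k * (k * D), ?_, ?_⟩
  · have g1 : 0 ≤ (k : ℝ) * (C₂ * β) := by positivity
    have g2 : 0 ≤ (k : ℝ) * (C₃ * β) := by positivity
    have g3 : 0 ≤ (k : ℝ) * (k * D) := by positivity
    linarith
  intro T hT v hv hvA Y R hY hR S hS
  have hTR : (1 : ℝ) ≤ T := by exact_mod_cast hT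
  have hT0 : (0 : ℝ) < T := by linarith
  have hY0 : 0 < Y := by linarith
  have hH : 1 ≤ b * T := Nat.mul_pos hb1 hT
  have hTη : 1 ≤ (T : ℝ) ^ η := Real.one_le_rpow hTR hη.le
  have hx : ∀ t ∈ S, ∀ i, t - v i ∈ AC.box K (b * T) := by
    intro t ht i
    have hσ : ∀ σ : K →+* ℂ, ‖σ ((t - v i : 𝓞 K) : K)‖ ≤ (C₀ + A) * T := by
      intro σ
      have e1 : σ ((t - v i : 𝓞 K) : K) = σ (t : K) - σ (v i : K) := by simp
      rw [e1]
      refine (norm_sub_le _ _).trans ?_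
      have e2 := hbox T t (hS t ht).1 σ
      have e3 := hvA i σ
      linarith
    rw [AC.mem_box]
    intro l
    have e4 := hcoord _ _ hσ l
    have e5 : |((RingOfIntegers.basis K).repr (t - v i) l : ℝ)| ≤ ((b * T : ℕ) : ℝ) := by
      refine e4.trans ?_
      push_cast
      rw [← mul_assoc]
      exact mul_le_mul_of_nonneg_right hbC hT0.le
    exact_mod_cast e5
  -- (1) small conjugates
  have c1 : ∀ i, ((S.filter fun t => ∃ σ : K →+* ℂ, ‖σ ((t - v i : 𝓞 K) : K)‖ ≤ R).card : ℝ) ≤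
      C₂ * β * (T : ℝ) ^ d * (R / T) := by
    intro i
    have e1 := hsm (b * T) hH R hR
      ((S.filter fun t => ∃ σ : K →+* ℂ, ‖σ ((t - v i : 𝓞 K) : K)‖ ≤ R).image fun t => t - v i)
      (fun x hx' => by
        rw [mem_image] at hx'
        obtain ⟨t, ht, rfl⟩ := hx'
        rw [mem_filter] at ht
        exact ⟨hx t ht.1 i, ht.2⟩)
    rw [card_image_of_injective _ sub_left_injective] at e1
    refine e1.trans ?_
    push_cast
    rw [mul_pow, ← hβ]
    have e2 : R / (b * T) ≤ R / T := div_le_div_of_nonneg_left (by linarith) hT0 (by nlinarith)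
    calc C₂ * (β * (T : ℝ) ^ d) * (R / (b * T)) ≤ C₂ * (β * (T : ℝ) ^ d) * (R / T) :=
          mul_le_mul_of_nonneg_left e2 (by positivity)
      _ = C₂ * β * (T : ℝ) ^ d * (R / T) := by ring
  -- (2) squares
  have c2 : ∀ i, ((S.filter fun t => t - v i ≠ 0 ∧
      ∃ I : Ideal (𝓞 K), Y ≤ Ideal.absNorm I ∧ t - v i ∈ I ^ 2).card : ℝ) ≤
      C₃ * β * (T : ℝ) ^ d * ((T : ℝ) ^ η / Y) := by
    intro i
    have e1 := hsq (b * T) hH Y hY
      ((S.filter fun t => t - v i ≠ 0 ∧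
        ∃ I : Ideal (𝓞 K), Y ≤ Ideal.absNorm I ∧ t - v i ∈ I ^ 2).image fun t => t - v i)
      (fun x hx' => by
        rw [mem_image] at hx'
        obtain ⟨t, ht, rfl⟩ := hx'
        rw [mem_filter] at ht
        exact ⟨hx t ht.1 i, ht.2.1, ht.2.2⟩)
    rw [card_image_of_injective _ sub_left_injective] at e1
    refine e1.trans ?_
    push_cast
    rw [mul_pow, ← hβ]
    have e2 : 1 / Y ≤ (T : ℝ) ^ η / Y := div_le_div_of_nonneg_right hTη hY0.le
    calc C₃ * (β * (T : ℝ) ^ d) / Y = C₃ * (β * (T : ℝ) ^ d) * (1 / Y) := by ring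
      _ ≤ C₃ * (β * (T : ℝ) ^ d) * ((T : ℝ) ^ η / Y) := mul_le_mul_of_nonneg_left e2 (by positivity)
      _ = C₃ * β * (T : ℝ) ^ d * ((T : ℝ) ^ η / Y) := by ring
  -- (3) common divisors
  have c3 : ∀ i j, i ≠ j → ((S.filter fun t => t - v i ≠ 0 ∧
      ∃ I : Ideal (𝓞 K), Y ≤ Ideal.absNorm I ∧ t - v i ∈ I ∧ t - v j ∈ I).card : ℝ) ≤
      D * (T : ℝ) ^ d * ((T : ℝ) ^ η / Y) := by
    intro i j hij
    obtain ⟨S', hS'⟩ : ∃ S' : Finset (𝓞 K), S' = S.filter fun t => t - v i ≠ 0 ∧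
      ∃ I : Ideal (𝓞 K), Y ≤ Ideal.absNorm I ∧ t - v i ∈ I ∧ t - v j ∈ I := ⟨_, rfl⟩
    rw [← hS']
    have hex : ∀ t : 𝓞 K, ∃ I : Ideal (𝓞 K), t ∈ S' →
        Y ≤ Ideal.absNorm I ∧ t - v i ∈ I ∧ t - v j ∈ I := by
      intro t
      by_cases ht : t ∈ S'
      · have ht' := ht
        rw [hS', mem_filter] at ht'
        obtain ⟨-, -, I, hI⟩ := ht'
        exact ⟨I, fun _ => hI⟩
      · exact ⟨⊥, fun h => absurd h ht⟩
    choose c hc using hex
    have hJ : Ideal.span {v j - v i} ≠ (⊥ : Ideal (𝓞 K)) := by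
      rw [Ne, Ideal.span_singleton_eq_bot, sub_eq_zero]
      exact fun h => hij (hv h).symm
    have g1 := hdiv (Ideal.span {v j - v i}) hJ (S'.image c) (fun I hI => by
      rw [mem_image] at hI
      obtain ⟨t, ht, rfl⟩ := hI
      rw [Ideal.dvd_iff_le, Ideal.span_singleton_le_iff_mem]
      have e1 := (c t).sub_mem (hc t ht).2.1 (hc t ht).2.2
      rwa [sub_sub_sub_cancel_left] at e1)
    have g2 : (Ideal.absNorm (Ideal.span {v j - v i}) : ℝ) ≤ (2 * A * T) ^ d := by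
      have e1 := AC.Nm_emb (v j - v i)
      have e2 : (AC.Nm (v j - v i) : ℝ) = (Ideal.absNorm (Ideal.span {v j - v i}) : ℝ) := rfl
      rw [← e2, e1, ← hcard, ← card_univ, ← prod_const]
      refine prod_le_prod (fun _ _ => norm_nonneg _) fun σ _ => ?_
      have e3 : σ ((v j - v i : 𝓞 K) : K) = σ (v j : K) - σ (v i : K) := by simp
      rw [e3]
      refine (norm_sub_le _ _).trans ?_
      have e4 := hvA i σ
      have e5 := hvA j σ
      linarith
    have g3 : (Ideal.absNorm (Ideal.span {v j - v i}) : ℝ) ^ (η / d) ≤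
        (2 * A) ^ η * (T : ℝ) ^ η := by
      have e1 := Real.rpow_le_rpow (Nat.cast_nonneg _) g2 (show 0 ≤ η / d by positivity)
      refine e1.trans (le_of_eq ?_)
      rw [← Real.rpow_natCast, ← Real.rpow_mul (by positivity), mul_div_cancel₀ _ hdR.ne',
        Real.mul_rpow (by positivity) hT0.le]
    have h3 : S' ⊆ (S'.image c).biUnion fun I => S'.filter fun x => c x = I := by
      intro x hx
      rw [mem_biUnion]
      exact ⟨c x, mem_image_of_mem _ hx, mem_filter.2 ⟨hx, rfl⟩⟩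
    have h4 : (S'.card : ℝ) ≤ ∑ I ∈ S'.image c, ((S'.filter fun x => c x = I).card : ℝ) := by
      exact_mod_cast (card_le_card h3).trans card_biUnion_le
    have h5 : ∀ I ∈ S'.image c, ((S'.filter fun x => c x = I).card : ℝ) ≤
        C₁ * (β * (T : ℝ) ^ d) / Y := by
      intro I hI
      rw [mem_image] at hI
      obtain ⟨t₀, ht₀, rfl⟩ := hI
      have hYI := (hc t₀ ht₀).1
      have hI0 : c t₀ ≠ ⊥ := by
        intro h
        rw [h, Ideal.absNorm_bot] at hYI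
        push_cast at hYI
        linarith
      have e1 := hci (b * T) hH (c t₀) hI0
        ((S'.filter fun x => c x = c t₀).image fun t => t - v i) (fun x hx' => by
          rw [mem_image] at hx'
          obtain ⟨t, ht, rfl⟩ := hx'
          rw [mem_filter] at ht
          have e2 := (hc t ht.1).2.1
          rw [ht.2] at e2
          have e3 := ht.1
          rw [hS', mem_filter] at e3
          exact ⟨hx t e3.1 i, e3.2.1, e2⟩)
      rw [card_image_of_injective _ sub_left_injective] at e1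
      refine e1.trans ?_
      push_cast
      rw [mul_pow, ← hβ]
      exact div_le_div_of_nonneg_left (by positivity) hY0 hYI
    have h6 := sum_le_card_nsmul _ _ _ h5
    rw [nsmul_eq_mul] at h6
    have g4 : ((S'.image c).card : ℝ) ≤ C₄ * ((2 * A) ^ η * (T : ℝ) ^ η) :=
      g1.trans (mul_le_mul_of_nonneg_left g3 hC₄0.le)
    refine h4.trans (h6.trans ?_)
    have g5 := mul_le_mul_of_nonneg_right g4 (show 0 ≤ C₁ * (β * (T : ℝ) ^ d) / Y by positivity)
    refine g5.trans (le_of_eq ?_)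
    rw [hD]
    ring
  -- the union
  have hsub : S ⊆ ((univ : Finset (Fin k)).biUnion fun i =>
        S.filter fun t => ∃ σ : K →+* ℂ, ‖σ ((t - v i : 𝓞 K) : K)‖ ≤ R) ∪
      (((univ : Finset (Fin k)).biUnion fun i => S.filter fun t => t - v i ≠ 0 ∧
        ∃ I : Ideal (𝓞 K), Y ≤ Ideal.absNorm I ∧ t - v i ∈ I ^ 2) ∪
      ((univ : Finset (Fin k)).biUnion fun i => (univ.filter fun j => i ≠ j).biUnion fun j =>
        S.filter fun t => t - v i ≠ 0 ∧
          ∃ I : Ideal (𝓞 K), Y ≤ Ideal.absNorm I ∧ t - v i ∈ I ∧ t - v j ∈ I)) := by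
    intro t ht
    have hz : ∀ i, t - v i = 0 → t ∈ (univ : Finset (Fin k)).biUnion fun i =>
        S.filter fun t => ∃ σ : K →+* ℂ, ‖σ ((t - v i : 𝓞 K) : K)‖ ≤ R := by
      intro i hi
      rw [mem_biUnion]
      refine ⟨i, mem_univ _, mem_filter.2 ⟨ht, Classical.arbitrary _, ?_⟩⟩
      rw [hi]
      simp only [map_zero, norm_zero]
      linarith
    rw [mem_union, mem_union]
    rcases (hS t ht).2 with ⟨i, hi⟩ | ⟨i, hi⟩ | ⟨i, j, hij, hI⟩
    · left
      rw [mem_biUnion]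
      exact ⟨i, mem_univ _, mem_filter.2 ⟨ht, hi⟩⟩
    · by_cases h0 : t - v i = 0
      · exact Or.inl (hz i h0)
      · right
        left
        rw [mem_biUnion]
        exact ⟨i, mem_univ _, mem_filter.2 ⟨ht, h0, hi⟩⟩
    · by_cases h0 : t - v i = 0
      · exact Or.inl (hz i h0)
      · right
        right
        rw [mem_biUnion]
        refine ⟨i, mem_univ _, ?_⟩
        rw [mem_biUnion]
        exact ⟨j, mem_filter.2 ⟨mem_univ _, hij⟩, mem_filter.2 ⟨ht, h0, hI⟩⟩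
  have hcardS : (S.card : ℝ) ≤
      (∑ i, ((S.filter fun t => ∃ σ : K →+* ℂ, ‖σ ((t - v i : 𝓞 K) : K)‖ ≤ R).card : ℝ)) +
      ((∑ i, ((S.filter fun t => t - v i ≠ 0 ∧
        ∃ I : Ideal (𝓞 K), Y ≤ Ideal.absNorm I ∧ t - v i ∈ I ^ 2).card : ℝ)) +
      ∑ i, ∑ j ∈ univ.filter fun j => i ≠ j, ((S.filter fun t => t - v i ≠ 0 ∧
          ∃ I : Ideal (𝓞 K), Y ≤ Ideal.absNorm I ∧ t - v i ∈ I ∧ t - v j ∈ I).card : ℝ)) := by
    have e1 := (card_le_card hsub).trans (card_union_le _ _)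
    have e2 := e1.trans (add_le_add card_biUnion_le ((card_union_le _ _).trans
      (add_le_add card_biUnion_le (card_biUnion_le.trans
        (sum_le_sum fun i _ => card_biUnion_le)))))
    exact_mod_cast e2
  have u1 := sum_le_card_nsmul (univ : Finset (Fin k)) _ _ fun i _ => c1 i
  have u2 := sum_le_card_nsmul (univ : Finset (Fin k)) _ _ fun i _ => c2 i
  have u3 : ∑ i, ∑ j ∈ univ.filter fun j => i ≠ j, ((S.filter fun t => t - v i ≠ 0 ∧
      ∃ I : Ideal (𝓞 K), Y ≤ Ideal.absNorm I ∧ t - v i ∈ I ∧ t - v j ∈ I).card : ℝ) ≤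
      (k : ℝ) * (k * (D * (T : ℝ) ^ d * ((T : ℝ) ^ η / Y))) := by
    have e1 : ∀ i ∈ (univ : Finset (Fin k)), ∑ j ∈ univ.filter fun j => i ≠ j,
        ((S.filter fun t => t - v i ≠ 0 ∧
          ∃ I : Ideal (𝓞 K), Y ≤ Ideal.absNorm I ∧ t - v i ∈ I ∧ t - v j ∈ I).card : ℝ) ≤
        k * (D * (T : ℝ) ^ d * ((T : ℝ) ^ η / Y)) := by
      intro i _
      have e2 := sum_le_card_nsmul (univ.filter fun j => i ≠ j) _ _
        fun j hj => c3 i j (mem_filter.1 hj).2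
      rw [nsmul_eq_mul] at e2
      refine e2.trans (mul_le_mul_of_nonneg_right ?_ (by positivity))
      have e3 : (univ.filter fun j => i ≠ j).card ≤ k := by
        refine (card_filter_le _ _).trans ?_
        rw [card_univ, Fintype.card_fin]
      exact_mod_cast e3
    have e4 := sum_le_card_nsmul _ _ _ e1
    rwa [nsmul_eq_mul, card_univ, Fintype.card_fin] at e4
  rw [nsmul_eq_mul, card_univ, Fintype.card_fin] at u1 u2
  have hfin : (k : ℝ) * (C₂ * β * (T : ℝ) ^ d * (R / T)) +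
      ((k : ℝ) * (C₃ * β * (T : ℝ) ^ d * ((T : ℝ) ^ η / Y)) +
      (k : ℝ) * (k * (D * (T : ℝ) ^ d * ((T : ℝ) ^ η / Y)))) ≤
      (1 + k * (C₂ * β) + k * (C₃ * β) + k * (k * D)) * (T : ℝ) ^ d * (R / T + (T : ℝ) ^ η / Y) := by
    have p0 : 0 ≤ (T : ℝ) ^ d := by positivity
    have p1 : 0 ≤ R / T := by positivity
    have p2 : 0 ≤ (T : ℝ) ^ η / Y := by positivity
    have q1 : 0 ≤ (k : ℝ) * (C₂ * β) := by positivity
    have q2 : 0 ≤ (k : ℝ) * (C₃ * β) := by positivity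
    have q3 : 0 ≤ (k : ℝ) * (k * D) := by positivity
    have r1 : (1 + k * (C₂ * β) + k * (C₃ * β) + k * (k * D)) * (T : ℝ) ^ d *
        (R / T + (T : ℝ) ^ η / Y) =
        ((k : ℝ) * (C₂ * β * (T : ℝ) ^ d * (R / T)) +
        ((k : ℝ) * (C₃ * β * (T : ℝ) ^ d * ((T : ℝ) ^ η / Y)) +
        (k : ℝ) * (k * (D * (T : ℝ) ^ d * ((T : ℝ) ^ η / Y))))) +
        ((T : ℝ) ^ d * (R / T) + (T : ℝ) ^ d * ((T : ℝ) ^ η / Y) +
          (k * (C₂ * β)) * ((T : ℝ) ^ d * ((T : ℝ) ^ η / Y)) +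
          (k * (C₃ * β)) * ((T : ℝ) ^ d * (R / T)) +
          (k * (k * D)) * ((T : ℝ) ^ d * (R / T))) := by ring
    rw [r1]
    have s1 : 0 ≤ (T : ℝ) ^ d * (R / T) := mul_nonneg p0 p1
    have s2 : 0 ≤ (T : ℝ) ^ d * ((T : ℝ) ^ η / Y) := mul_nonneg p0 p2
    have s3 := mul_nonneg q1 s2
    have s4 := mul_nonneg q2 s1
    have s5 := mul_nonneg q3 s1
    linarith
  linarith

end Pool.Agent.H51.CP
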